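import Pool.Agent.X194.UM.Main

/-!
# The one-dimensional case
-/

namespace Pool.Agent.X194.UM

open Filter Topology

section
variable {A : Type*} [TopologicalSpace A] [DiscreteTopology A]

omit [TopologicalSpace A] [DiscreteTopology A] in
/-- A pattern occurring twice in a point gives a periodic point containing it. -/
theorem exists_periodic {X : Set (ℤ → A)} {M : ℕ} (hW : Win X M)
    (hinv : ∀ v : ℤ, ∀ x ∈ X, sh v x ∈ X) {x : ℤ → A} (hx : x ∈ X) {w : ℤ → A} {L : ℕ}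
    (hL : M ≤ L) {p q : ℤ} (hpq : p < q) (h1 : ag (sh p x) w L) (h2 : ag (sh q x) w L) :
    ∃ π ∈ X, (∀ u, π (u + (q - p)) = π u) ∧ ag π w L := by
  set P : ℤ := q - p with hP
  have hP0 : 0 < P := by omega
  -- first the eventual agreement
  have hx12 : ∀ u : ℤ, |u| ≤ L → x (u + p) = x (u + q) := fun u hu => by
    have a1 := h1 u hu
    have a2 := h2 u hu
    simp only [sh] at a1 a2
    rw [a1, a2]
  set π₀ : ℤ → A := fun u => x (p + (u - p) % P) with hπ₀
  have hper : ∀ u, π₀ (u + P) = π₀ u := by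
    intro u
    simp only [hπ₀]
    congr 2
    rw [show u + P - p = (u - p) + P by ring, Int.add_emod_right]
  have hper' : ∀ (n : ℕ) (u : ℤ), π₀ (u + n * P) = π₀ u := by
    intro n
    induction n with
    | zero => intro u; simp
    | succ n ih =>
      intro u
      rw [← ih u, ← hper (u + n * P)]
      congr 1; push_cast; ring
  have hper'' : ∀ (n : ℤ) (u : ℤ), π₀ (u + n * P) = π₀ u := by
    intro n u
    rcases Int.eq_nat_or_neg n with ⟨m, rfl | rfl⟩
    · exact hper' m u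
    · rw [← hper' m (u + -(m : ℤ) * P)]; congr 1; ring
  have hmid : ∀ u, p ≤ u → u < q → π₀ u = x u := by
    intro u h3 h4
    simp only [hπ₀]
    rw [Int.emod_eq_of_lt (by omega) (by omega)]
    congr 1; ring
  -- agreement on `[p, q + L]`
  have hright : ∀ n : ℕ, ∀ u : ℤ, p ≤ u → u ≤ q + L → u < q + n → π₀ u = x u := by
    intro n
    induction n with
    | zero => intro u a1 _ a3; exact hmid u a1 (by simpa using a3)
    | succ n ih =>
      intro u a1 a2 a3
      rcases lt_or_ge u q with h3 | h3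
      · exact hmid u a1 h3
      · have h4 : π₀ u = π₀ (u - P) := by rw [← hper (u - P)]; congr 1; ring
        rw [h4]
        have h5 := ih (u - P) (by omega) (by omega) (by push_cast at a3; omega)
        rw [h5]
        have h6 := hx12 (u - q) (by rw [abs_le]; constructor <;> omega)
        rw [show u - P = u - q + p by omega, h6]
        congr 1; ring
  have hleft : ∀ n : ℕ, ∀ u : ℤ, p - L ≤ u → u ≤ q + L → p - n ≤ u → π₀ u = x u := by
    intro n
    induction n with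
    | zero =>
      intro u _ a2 a3
      exact hright (L + 1) u (by simpa using a3) a2 (by push_cast; omega)
    | succ n ih =>
      intro u a1 a2 a3
      rcases le_or_gt p u with h3 | h3
      · exact hright (L + 1) u h3 a2 (by push_cast; omega)
      · rw [← hper u]
        have h5 := ih (u + P) (by omega) (by omega) (by push_cast at a3; omega)
        rw [h5]
        have h6 := hx12 (u - p) (by rw [abs_le]; constructor <;> omega)
        rw [show u + P = u - p + q by omega, ← h6]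
        congr 1; ring
  have hagree : ∀ u : ℤ, p - L ≤ u → u ≤ q + L → π₀ u = x u := fun u a1 a2 =>
    hleft L u a1 a2 a1
  have hmem : π₀ ∈ X := by
    refine hW _ fun v => ?_
    refine ⟨sh (p + (v - p) % P) x, hinv _ x hx, fun u hu => ?_⟩
    rw [abs_le] at hu
    have b1 := Int.emod_nonneg (v - p) hP0.ne'
    have b2 := Int.emod_lt_of_pos (v - p) hP0
    have b3 : sh v π₀ u = π₀ (u + (p + (v - p) % P)) := by
      show π₀ (u + v) = _
      rw [← hper'' ((v - p) / P) (u + (p + (v - p) % P))]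
      congr 1
      have := Int.emod_add_mul_ediv (v - p) P
      linarith [mul_comm ((v - p) / P) P]
    rw [b3]
    show _ = x (u + (p + (v - p) % P))
    exact hagree _ (by omega) (by omega)
  refine ⟨sh p π₀, hinv p _ hmem, fun u => ?_, fun u hu => ?_⟩
  · show π₀ (u + P + p) = π₀ (u + p)
    rw [← hper (u + p)]; congr 1; ring
  · show π₀ (u + p) = w u
    have c := abs_le.1 hu
    rw [hagree (u + p) (by omega) (by omega)]
    exact h1 u hu

/-- Structure of a maximal subsystem without periodic points outside. -/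
theorem isolated {X Y : Set (ℤ → A)} (hX : IsShift X) {M : ℕ} (hW : Win X M) (h : MaxSub Y X)
    (hno : ∀ p ∈ X, p ∉ Y → ∀ P : ℤ, 0 < P → ¬ ∀ u, p (u + P) = p u) :
    ∃ x₀ ∈ X, x₀ ∉ Y ∧ ∃ L₀ : ℕ, M ≤ L₀ ∧ (∀ y ∈ Y, ¬ ag y x₀ L₀) ∧ ∀ L, L₀ ≤ L →
      (∀ x ∈ X, ∀ p q : ℤ, p < q → ag (sh p x) x₀ L → ag (sh q x) x₀ L → False) ∧
      (∀ x ∈ X, ag x x₀ L → x = x₀) ∧ Y = av X x₀ L ∧ Win Y L := by
  obtain ⟨x₀, hx₀, hx₀Y⟩ := Set.exists_of_ssubset h.2.1
  obtain ⟨L₁, hL₁⟩ := exists_window h.1.2.1 hx₀Y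
  refine ⟨x₀, hx₀, hx₀Y, max L₁ M, le_max_right _ _,
    fun y hy hag => hL₁ y hy (ag_mono (le_max_left _ _) hag), fun L hL => ?_⟩
  have hLY : ∀ y ∈ Y, ¬ ag y x₀ L := fun y hy hag =>
    hL₁ y hy (ag_mono ((le_max_left _ _).trans hL) hag)
  have htwo : ∀ x ∈ X, ∀ p q : ℤ, p < q → ag (sh p x) x₀ L → ag (sh q x) x₀ L → False := by
    intro x hx p q hpq h1 h2
    obtain ⟨π, hπ, hper, hag⟩ := exists_periodic hW hX.2.2 hx ((le_max_right L₁ M).trans hL)
      hpq h1 h2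
    exact hno π hπ (fun hπY => hLY π hπY hag) (q - p) (by omega) hper
  have hiso : ∀ x ∈ X, ag x x₀ L → x = x₀ := by
    intro x hx hag
    have hxY : x ∉ Y := fun hxY => hLY x hxY hag
    have hcl : x ∈ closure (orb x₀) := (h.mem hX hx₀ hx₀Y hx).resolve_left hxY
    have key : ∀ L', L ≤ L' → ag x₀ x L' := by
      intro L' hL'
      obtain ⟨s, ⟨v, rfl⟩, hs⟩ := exists_of_closure hcl L'
      have hv : v = 0 := by
        have h0 : ag (sh 0 x₀) x₀ L := by rw [sh_zero]; exact fun u _ => rfl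
        have h3 : ag (sh v x₀) x₀ L := fun u hu => (ag_mono hL' hs u hu).trans (hag u hu)
        rcases lt_trichotomy v 0 with h4 | h4 | h4
        · exact (htwo x₀ hx₀ v 0 h4 h3 h0).elim
        · exact h4
        · exact (htwo x₀ hx₀ 0 v h4 h0 h3).elim
      subst hv
      simpa [sh_zero] using hs
    funext u
    exact (key (max L u.natAbs) (le_max_left _ _) u (by rw [abs_le]; omega)).symm
  have hYav : Y = av X x₀ L := by
    have h1 : IsShift (av X x₀ L) := by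
      refine ⟨?_, isClosed_av hX.2.1 _ _, fun v z hz => sh_mem_av hX.2.2 hz v⟩
      obtain ⟨y, hy⟩ := h.1.1
      exact ⟨y, h.2.1.subset hy, fun v hv => hLY _ (h.1.2.2 v y hy) hv⟩
    rcases h.2.2 _ h1 (fun y hy => ⟨h.2.1.subset hy, fun v hv => hLY _ (h.1.2.2 v y hy) hv⟩)
      (fun z hz => hz.1) with h2 | h2
    · exact h2.symm
    · exfalso
      rw [← h2] at hx₀
      exact hx₀.2 0 (by rw [sh_zero]; exact fun u _ => rfl)
  refine ⟨htwo, hiso, hYav, ?_⟩
  intro z hz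
  rw [hYav]
  refine ⟨hW.mono ((le_max_right L₁ M).trans hL) z fun v => ?_, fun v hv => ?_⟩
  · obtain ⟨y, hy, hy2⟩ := hz v
    exact ⟨y, h.2.1.subset hy, hy2⟩
  · obtain ⟨y, hy, hy2⟩ := hz v
    exact hLY y hy fun u hu => (hy2 u hu).symm.trans (hv u hu)

omit [TopologicalSpace A] [DiscreteTopology A] in
/-- Recurrence of windows to the right gives periodicity. -/
theorem right_case {X : Set (ℤ → A)} {M : ℕ} (hW : Win X M)
    (hinv : ∀ v : ℤ, ∀ x ∈ X, sh v x ∈ X) {x₀ y₀ : ℤ → A} (hx₀ : x₀ ∈ X) {L : ℕ} (hML : M ≤ L)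
    (hiso : ∀ x ∈ X, ag x x₀ L → x = x₀)
    (hrec : ∀ B : ℕ, ∃ N : ℕ, B ≤ N ∧ ∃ v : ℤ, (B : ℤ) < v ∧ ag (sh v x₀) y₀ N) :
    ∃ P : ℤ, 0 < P ∧ ∀ u, y₀ (u + P) = y₀ u := by
  obtain ⟨N₁, hN₁, a, ha, haa⟩ := hrec L
  obtain ⟨N₂, hN₂, b, hb, hbb⟩ := hrec (max L a.toNat)
  have hab : a < b := by
    have : (a.toNat : ℤ) ≤ (max L a.toNat : ℕ) := by exact_mod_cast le_max_right _ _
    omega
  have hLb : (L : ℤ) < b := by
    have : (L : ℤ) ≤ (max L a.toNat : ℕ) := by exact_mod_cast le_max_left _ _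
    omega
  set P : ℤ := b - a with hP
  have hz := glue hW hinv hx₀ (hinv (-P) x₀ hx₀) b (fun u hu => by
    show x₀ (u + b) = x₀ (u + b + -P)
    have h1 := haa u (hu.trans (by exact_mod_cast hML.trans hN₁))
    have h2 := hbb u (hu.trans (by exact_mod_cast hML.trans ((le_max_left _ _).trans hN₂)))
    simp only [sh] at h1 h2
    rw [h2, show u + b + -P = u + a by omega, h1])
  have hzx := hiso _ hz (fun u hu => by
    rw [abs_le] at hu
    show (if u < b then x₀ u else sh (-P) x₀ u) = x₀ u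
    rw [if_pos (by omega)])
  have hper : ∀ u, b ≤ u → x₀ u = x₀ (u - P) := by
    intro u hu
    have h1 : (if u < b then x₀ u else sh (-P) x₀ u) = x₀ u := congrFun hzx u
    rw [if_neg (by omega)] at h1
    exact h1.symm
  refine ⟨P, by omega, fun u => ?_⟩
  obtain ⟨N, hN, v, hv, hag⟩ := hrec (u.natAbs + P.toNat + b.toNat)
  have h1 := hag u (by rw [abs_le]; omega)
  have h2 := hag (u + P) (by rw [abs_le]; omega)
  rw [← h1, ← h2]
  show x₀ (u + P + v) = x₀ (u + v)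
  rw [hper (u + P + v) (by omega)]
  congr 1; ring

omit [TopologicalSpace A] [DiscreteTopology A] in
/-- Recurrence of windows to the left gives periodicity. -/
theorem left_case {X : Set (ℤ → A)} {M : ℕ} (hW : Win X M)
    (hinv : ∀ v : ℤ, ∀ x ∈ X, sh v x ∈ X) {x₀ y₀ : ℤ → A} (hx₀ : x₀ ∈ X) {L : ℕ} (hML : M ≤ L)
    (hiso : ∀ x ∈ X, ag x x₀ L → x = x₀)
    (hrec : ∀ B : ℕ, ∃ N : ℕ, B ≤ N ∧ ∃ v : ℤ, v < -(B : ℤ) ∧ ag (sh v x₀) y₀ N) :
    ∃ P : ℤ, 0 < P ∧ ∀ u, y₀ (u + P) = y₀ u := by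
  set R : (ℤ → A) → (ℤ → A) := fun x u => x (-u) with hR
  have hRR : ∀ x, R (R x) = x := fun x => by funext u; simp [hR]
  have hsh : ∀ (v : ℤ) (x : ℤ → A), R (sh v x) = sh (-v) (R x) := fun v x => by
    funext u; simp only [hR, sh]; congr 1; ring
  have hag : ∀ {x y : ℤ → A} {N : ℕ}, ag x y N → ag (R x) (R y) N := fun {x y N} h u hu =>
    h (-u) (by rwa [abs_neg])
  obtain ⟨P, hP, hper⟩ := right_case (X := {x | R x ∈ X}) (M := M) (x₀ := R x₀) (y₀ := R y₀)
    (L := L) (fun z hz => by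
      refine hW (R z) fun v => ?_
      obtain ⟨x, hx, hxa⟩ := hz (-v)
      refine ⟨R x, hx, ?_⟩
      have := hag hxa
      rwa [hsh, neg_neg] at this)
    (fun v x hx => by
      show R (sh v x) ∈ X
      rw [hsh]
      exact hinv _ _ hx)
    (by show R (R x₀) ∈ X; rw [hRR]; exact hx₀) hML
    (fun x hx hxa => by
      have h1 := hiso (R x) hx (by have := hag hxa; rwa [hRR] at this)
      rw [← h1, hRR])
    (fun B => by
      obtain ⟨N, hN, v, hv, hva⟩ := hrec B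
      refine ⟨N, hN, -v, by omega, ?_⟩
      have := hag hva
      rwa [hsh] at this)
  refine ⟨P, hP, fun u => ?_⟩
  have := hper (-(u + P))
  simp only [hR] at this
  rw [show -(-(u + P) + P) = u by ring, show -(-(u + P)) = u + P by ring] at this
  exact this.symm

/-- No chain of length three of unique maximal subsystems below a one-dimensional shift of
finite type. -/
theorem no_chain {X₀ X₁ X₂ X₃ : Set (ℤ → A)} (hX : IsShift X₀) {M : ℕ} (hW : Win X₀ M)
    (h0 : UniqueMax X₁ X₀) (h1 : UniqueMax X₂ X₁) (h2 : MaxSub X₃ X₂) : False := by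
  obtain ⟨x₀, hx₀, hx₀1, L₀, hML₀, hLY₀, hx₀L⟩ := isolated hX hW h0.1
    (fun p hp hp1 P hP hper => no_periodic hX h0 h1.1 hp hp1 hP hper)
  obtain ⟨-, -, -, hW1⟩ := hx₀L L₀ le_rfl
  obtain ⟨y₀, hy₀, hy₀2, L₁, hL₁, hLY₁, hy₀L⟩ := isolated h0.1.1 hW1 h1.1
    (fun p hp hp1 P hP hper => no_periodic h0.1.1 h1 h2 hp hp1 hP hper)
  have hyX : y₀ ∈ X₀ := h0.1.2.1.subset hy₀
  obtain ⟨-, hyiso, -, -⟩ := hy₀L L₁ le_rfl
  obtain ⟨-, hxiso, -, -⟩ := hx₀L L₁ hL₁
  -- `y₀` is not isolated in `X₀`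
  have hnoniso : ∀ N : ℕ, L₁ ≤ N → ∃ x ∈ X₀, ag x y₀ N ∧ x ≠ y₀ := by
    intro N hN
    by_contra hcon
    push Not at hcon
    have hx₀av : x₀ ∈ av X₀ y₀ N := by
      refine ⟨hx₀, fun v hv => ?_⟩
      have h3 := hcon (sh v x₀) (hX.2.2 v x₀ hx₀) hv
      have h4 := h0.1.1.2.2 (-v) y₀ hy₀
      rw [← h3, sh_neg] at h4
      exact hx₀1 h4
    have hmax : MaxSub (av X₀ y₀ N) X₀ := by
      refine ⟨⟨⟨x₀, hx₀av⟩, isClosed_av hX.2.1 _ _, fun v z hz => sh_mem_av hX.2.2 hz v⟩, ?_, ?_⟩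
      · refine (Set.ssubset_iff_of_subset (fun z hz => hz.1)).2 ⟨y₀, hyX, fun h => ?_⟩
        exact h.2 0 (by rw [sh_zero]; exact fun u _ => rfl)
      · intro Z hZ h3 h4
        by_cases h5 : Z = av X₀ y₀ N
        · exact Or.inl h5
        right
        obtain ⟨z, hz, hz2⟩ : ∃ z ∈ Z, z ∉ av X₀ y₀ N := by
          by_contra h6
          push Not at h6
          exact h5 (Set.Subset.antisymm h6 h3)
        have hext : ∀ z ∈ X₀, z ∉ av X₀ y₀ N → ∃ v : ℤ, sh v z = y₀ := by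
          intro z hz hz2
          have : ∃ v : ℤ, ag (sh v z) y₀ N := by
            by_contra h6
            push Not at h6
            exact hz2 ⟨hz, h6⟩
          obtain ⟨v, hv⟩ := this
          exact ⟨v, hcon _ (hX.2.2 v z hz) hv⟩
        obtain ⟨v, hv⟩ := hext z (h4 hz) hz2
        have hyZ : y₀ ∈ Z := by rw [← hv]; exact hZ.2.2 v z hz
        refine Set.Subset.antisymm h4 fun t ht => ?_
        by_cases h6 : t ∈ av X₀ y₀ N
        · exact h3 h6
        · obtain ⟨w, hw⟩ := hext t ht h6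
          have h7 := hZ.2.2 (-w) y₀ hyZ
          rw [← hw, sh_neg] at h7
          exact h7
    have h3 := h0.2 _ hmax
    rw [← h3] at hy₀
    exact hy₀.2 0 (by rw [sh_zero]; exact fun u _ => rfl)
  have hocc : ∀ N : ℕ, L₁ ≤ N → ∃ v : ℤ, ag (sh v x₀) y₀ N := by
    intro N hN
    obtain ⟨x, hx, hxa, hxne⟩ := hnoniso N hN
    have hx1 : x ∉ X₁ := fun h => hxne (hyiso x h (ag_mono hN hxa))
    obtain ⟨-, -, hav, -⟩ := hx₀L L₁ hL₁
    have : ∃ v : ℤ, ag (sh v x) x₀ L₁ := by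
      by_contra h6
      push Not at h6
      exact hx1 (by rw [hav]; exact ⟨hx, h6⟩)
    obtain ⟨v, hv⟩ := this
    have h3 := hxiso _ (hX.2.2 v x hx) hv
    refine ⟨-v, ?_⟩
    rw [← h3, sh_neg]
    exact hxa
  have hfar : ∀ v : ℤ, ∃ N : ℕ, L₁ ≤ N ∧ ¬ ag (sh v x₀) y₀ N := by
    intro v
    by_contra hcon
    push Not at hcon
    have h3 : sh v x₀ = y₀ := by
      funext u
      exact hcon (max L₁ u.natAbs) (le_max_left _ _) u (by rw [abs_le]; omega)
    have h4 := h0.1.1.2.2 (-v) y₀ hy₀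
    rw [← h3, sh_neg] at h4
    exact hx₀1 h4
  -- occurrences far away
  have hfar2 : ∀ B : ℕ, ∃ N : ℕ, B ≤ N ∧ ∃ v : ℤ, (B : ℤ) < |v| ∧ ag (sh v x₀) y₀ N := by
    intro B
    choose f hf1 hf2 using hfar
    set N : ℕ := (∑ v ∈ Finset.Icc (-(B : ℤ)) B, f v) + L₁ + B with hN
    obtain ⟨v, hv⟩ := hocc N (by omega)
    refine ⟨N, by omega, v, ?_, hv⟩
    by_contra hcon
    have h3 : v ∈ Finset.Icc (-(B : ℤ)) B := by
      rw [Finset.mem_Icc, ← abs_le]; omega
    have h4 : f v ≤ ∑ v ∈ Finset.Icc (-(B : ℤ)) B, f v :=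
      Finset.single_le_sum (f := f) (fun _ _ => Nat.zero_le _) h3
    exact hf2 v (ag_mono (by omega) hv)
  have hperiodic : ∃ P : ℤ, 0 < P ∧ ∀ u, y₀ (u + P) = y₀ u := by
    by_cases hr : ∀ B : ℕ, ∃ N : ℕ, B ≤ N ∧ ∃ v : ℤ, (B : ℤ) < v ∧ ag (sh v x₀) y₀ N
    · exact right_case hW hX.2.2 hx₀ (hML₀.trans hL₁) hxiso hr
    · push Not at hr
      obtain ⟨B₁, hB₁⟩ := hr
      refine left_case hW hX.2.2 hx₀ (hML₀.trans hL₁) hxiso fun B => ?_
      obtain ⟨N, hN, v, hv, hva⟩ := hfar2 (B + B₁)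
      refine ⟨N, by omega, v, ?_, hva⟩
      by_contra hcon
      push_cast at hv
      refine hB₁ N (by omega) v ?_ hva
      rcases abs_cases v with ⟨h3, h4⟩ | ⟨h3, h4⟩ <;> omega
  obtain ⟨P, hP, hper⟩ := hperiodic
  exact no_periodic h0.1.1 h1 h2 hy₀ hy₀2 hP hper

end

end Pool.Agent.X194.UM
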