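import Mathlib

/-!
# Chains of unique maximal subsystems below a one-dimensional shift of finite type
-/

namespace Pool.Agent.X194.UM

open Filter Topology

section
variable {A : Type*} [TopologicalSpace A] [DiscreteTopology A]

/-- Translation. -/
def sh (v : ℤ) (x : ℤ → A) : ℤ → A := fun u => x (u + v)

/-- Nonempty closed translation invariant sets of configurations. -/
def IsShift (X : Set (ℤ → A)) : Prop := X.Nonempty ∧ IsClosed X ∧ ∀ v : ℤ, ∀ x ∈ X, sh v x ∈ X

/-- Maximal subsystems. -/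
def MaxSub (Y X : Set (ℤ → A)) : Prop :=
  IsShift Y ∧ Y ⊂ X ∧ ∀ Z : Set (ℤ → A), IsShift Z → Y ⊆ Z → Z ⊆ X → Z = Y ∨ Z = X

/-- The unique maximal subsystem. -/
def UniqueMax (Y X : Set (ℤ → A)) : Prop := MaxSub Y X ∧ ∀ Z, MaxSub Z X → Z = Y

/-- Agreement on the window of radius `L`. -/
def ag (x y : ℤ → A) (L : ℕ) : Prop := ∀ u : ℤ, |u| ≤ L → x u = y u

/-- The set is determined by its windows of radius `M`. -/
def Win (X : Set (ℤ → A)) (M : ℕ) : Prop :=
  ∀ z : ℤ → A, (∀ v : ℤ, ∃ x ∈ X, ag (sh v z) x M) → z ∈ X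

omit [TopologicalSpace A] [DiscreteTopology A] in
theorem ag_mono {x y : ℤ → A} {L L' : ℕ} (h : L ≤ L') (hx : ag x y L') : ag x y L :=
  fun u hu => hx u (hu.trans (by exact_mod_cast h))

omit [TopologicalSpace A] [DiscreteTopology A] in
theorem ag_symm {x y : ℤ → A} {L : ℕ} (h : ag x y L) : ag y x L := fun u hu => (h u hu).symm

omit [TopologicalSpace A] [DiscreteTopology A] in
theorem sh_sh (v w : ℤ) (x : ℤ → A) : sh v (sh w x) = sh (v + w) x := by
  funext u; simp [sh, add_assoc]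

omit [TopologicalSpace A] [DiscreteTopology A] in
theorem sh_zero (x : ℤ → A) : sh 0 x = x := by
  funext u; simp [sh]

omit [TopologicalSpace A] [DiscreteTopology A] in
theorem sh_neg (v : ℤ) (x : ℤ → A) : sh (-v) (sh v x) = x := by
  rw [sh_sh, neg_add_cancel, sh_zero]

omit [TopologicalSpace A] [DiscreteTopology A] in
theorem Win.mono {X : Set (ℤ → A)} {M L : ℕ} (h : Win X M) (hL : M ≤ L) : Win X L := by
  intro z hz
  refine h z fun v => ?_
  obtain ⟨x, hx, hxa⟩ := hz v
  exact ⟨x, hx, ag_mono hL hxa⟩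

omit [DiscreteTopology A] in
theorem continuous_sh (v : ℤ) : Continuous (sh (A := A) v) :=
  continuous_pi fun u => continuous_apply (u + v)

theorem isOpen_ag (x : ℤ → A) (L : ℕ) : IsOpen {z : ℤ → A | ag z x L} := by
  have h : {z : ℤ → A | ag z x L} =
      ⋂ u ∈ Finset.Icc (-(L : ℤ)) L, (fun z : ℤ → A => z u) ⁻¹' {x u} := by
    ext z
    simp only [Set.mem_ofPred_eq, Set.mem_iInter, Finset.mem_Icc, Set.mem_preimage,
      Set.mem_singleton_iff, ag, abs_le]
  rw [h]
  exact isOpen_biInter_finset fun u _ => (isOpen_discrete _).preimage (continuous_apply u)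

theorem mem_of_ag {Z : Set (ℤ → A)} (hZ : IsClosed Z) {x : ℤ → A}
    (h : ∀ L : ℕ, ∃ z ∈ Z, ag z x L) : x ∈ Z := by
  choose z hz hzx using h
  refine hZ.mem_of_tendsto (f := z) (b := atTop) ?_ (Eventually.of_forall hz)
  rw [tendsto_pi_nhds]
  intro u
  refine tendsto_const_nhds.congr' ?_
  filter_upwards [eventually_ge_atTop u.natAbs] with L hL
  exact (hzx L u (by rw [abs_le]; omega)).symm

theorem exists_window {Z : Set (ℤ → A)} (hZ : IsClosed Z) {x : ℤ → A} (hx : x ∉ Z) :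
    ∃ L : ℕ, ∀ z ∈ Z, ¬ ag z x L := by
  by_contra h
  push Not at h
  exact hx (mem_of_ag hZ h)

theorem exists_of_closure {S : Set (ℤ → A)} {x : ℤ → A} (hx : x ∈ closure S) (L : ℕ) :
    ∃ s ∈ S, ag s x L := by
  rw [mem_closure_iff] at hx
  obtain ⟨s, hs1, hs2⟩ := hx _ (isOpen_ag x L) (fun u _ => rfl)
  exact ⟨s, hs2, hs1⟩

/-- The orbit. -/
def orb (x : ℤ → A) : Set (ℤ → A) := Set.range fun v : ℤ => sh v x

omit [TopologicalSpace A] [DiscreteTopology A] in
theorem sh_mem_orb {x z : ℤ → A} (v : ℤ) (h : z ∈ orb x) : sh v z ∈ orb x := by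
  obtain ⟨w, rfl⟩ := h
  exact ⟨v + w, (sh_sh v w x).symm⟩

theorem sh_mem_closure {x z : ℤ → A} (v : ℤ) (h : z ∈ closure (orb x)) :
    sh v z ∈ closure (orb x) := by
  have h1 : Set.MapsTo (sh v) (orb x) (orb x) := fun z hz => sh_mem_orb v hz
  exact h1.closure (continuous_sh v) h

theorem isShift_union_closure {Y : Set (ℤ → A)} (hY : IsShift Y) (x : ℤ → A) :
    IsShift (Y ∪ closure (orb x)) := by
  refine ⟨hY.1.mono Set.subset_union_left, hY.2.1.union isClosed_closure, fun v z hz => ?_⟩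
  rcases hz with hz | hz
  · exact Or.inl (hY.2.2 v z hz)
  · exact Or.inr (sh_mem_closure v hz)

/-- A point outside a maximal subsystem generates the rest. -/
theorem MaxSub.mem {Y X : Set (ℤ → A)} (h : MaxSub Y X) (hX : IsShift X) {x : ℤ → A} (hx : x ∈ X)
    (hxY : x ∉ Y) {z : ℤ → A} (hz : z ∈ X) : z ∈ Y ∨ z ∈ closure (orb x) := by
  have h1 : orb x ⊆ X := by
    rintro _ ⟨v, rfl⟩
    exact hX.2.2 v x hx
  have h2 : Y ∪ closure (orb x) ⊆ X :=
    Set.union_subset h.2.1.subset (closure_minimal h1 hX.2.1)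
  have h3 : x ∈ Y ∪ closure (orb x) := Or.inr (subset_closure ⟨0, sh_zero x⟩)
  rcases h.2.2 _ (isShift_union_closure h.1 x) Set.subset_union_left h2 with h4 | h4
  · rw [h4] at h3; exact absurd h3 hxY
  · rw [← h4] at hz; exact hz

/-- Points avoiding a window. -/
def av (X : Set (ℤ → A)) (x : ℤ → A) (L : ℕ) : Set (ℤ → A) :=
  {z | z ∈ X ∧ ∀ v : ℤ, ¬ ag (sh v z) x L}

theorem isClosed_av {X : Set (ℤ → A)} (hX : IsClosed X) (x : ℤ → A) (L : ℕ) :
    IsClosed (av X x L) := by
  have h : av X x L = X ∩ ⋂ v : ℤ, (sh v ⁻¹' {z : ℤ → A | ag z x L})ᶜ := by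
    ext z
    simp [av]
  rw [h]
  exact hX.inter (isClosed_iInter fun v => ((isOpen_ag x L).preimage (continuous_sh v)).isClosed_compl)

omit [TopologicalSpace A] [DiscreteTopology A] in
theorem sh_mem_av {X : Set (ℤ → A)} (hX : ∀ v : ℤ, ∀ x ∈ X, sh v x ∈ X) {x z : ℤ → A} {L : ℕ}
    (hz : z ∈ av X x L) (v : ℤ) : sh v z ∈ av X x L := by
  refine ⟨hX v z hz.1, fun w hw => ?_⟩
  rw [sh_sh] at hw
  exact hz.2 _ hw

/-- Removing a periodic point contradicts uniqueness. -/
theorem no_periodic {X Y Y₂ : Set (ℤ → A)} (hX : IsShift X) (h : UniqueMax Y X)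
    (h2 : MaxSub Y₂ Y) {p : ℤ → A} (hp : p ∈ X) (hpY : p ∉ Y) {P : ℤ} (hP : 0 < P)
    (hper : ∀ u, p (u + P) = p u) : False := by
  have hmul : ∀ (n : ℕ) (u : ℤ), p (u + n * P) = p u := by
    intro n
    induction n with
    | zero => intro u; simp
    | succ n ih =>
      intro u
      rw [← ih u, ← hper (u + n * P)]
      congr 1; push_cast; ring
  have hmulz : ∀ (n : ℤ) (u : ℤ), p (u + n * P) = p u := by
    intro n u
    rcases Int.eq_nat_or_neg n with ⟨m, rfl | rfl⟩
    · exact hmul m u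
    · rw [← hmul m (u + -(m : ℤ) * P)]; congr 1; ring
  have hfin : (orb p).Finite := by
    have h1 : orb p ⊆ (fun v : ℤ => sh v p) '' (Set.Ico 0 P) := by
      rintro _ ⟨v, rfl⟩
      refine ⟨v % P, ⟨Int.emod_nonneg v hP.ne', Int.emod_lt_of_pos v hP⟩, ?_⟩
      funext u
      show p (u + v % P) = p (u + v)
      rw [← hmulz (v / P) (u + v % P)]
      congr 1
      have := Int.emod_add_mul_ediv v P
      linarith [mul_comm (v / P) P]
    exact ((Set.finite_Ico 0 P).image _).subset h1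
  have hcl : closure (orb p) = orb p := hfin.isClosed.closure_eq
  have hdis : ∀ z ∈ orb p, z ∉ Y := by
    rintro _ ⟨v, rfl⟩ hv
    have := h.1.1.2.2 (-v) _ hv
    simp only at this
    rw [sh_neg] at this
    exact hpY this
  have hpo : p ∈ orb p := ⟨0, sh_zero p⟩
  have hXeq : ∀ z ∈ X, z ∈ Y ∨ z ∈ orb p := fun z hz => by
    have := h.1.mem hX hp hpY hz
    rwa [hcl] at this
  have horbX : orb p ⊆ X := by
    rintro _ ⟨v, rfl⟩
    exact hX.2.2 v p hp
  have hZ : IsShift (Y₂ ∪ orb p) := by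
    have := isShift_union_closure h2.1 p
    rwa [hcl] at this
  obtain ⟨y, hyY, hyY2⟩ := Set.exists_of_ssubset h2.2.1
  have hmax : MaxSub (Y₂ ∪ orb p) X := by
    refine ⟨hZ, ?_, ?_⟩
    · refine (Set.ssubset_iff_of_subset (Set.union_subset
        (h2.2.1.subset.trans h.1.2.1.subset) horbX)).2 ⟨y, h.1.2.1.subset hyY, ?_⟩
      rintro (h3 | h3)
      · exact hyY2 h3
      · exact hdis y h3 hyY
    · intro Z' hZ' h3 h4
      have h5 : IsShift (Z' ∩ Y) := by
        refine ⟨h2.1.1.mono fun z hz => ⟨h3 (Or.inl hz), h2.2.1.subset hz⟩,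
          hZ'.2.1.inter h.1.1.2.1, fun v z hz => ⟨hZ'.2.2 v z hz.1, h.1.1.2.2 v z hz.2⟩⟩
      rcases h2.2.2 _ h5 (fun z hz => ⟨h3 (Or.inl hz), h2.2.1.subset hz⟩) Set.inter_subset_right
        with h6 | h6
      · left
        refine Set.Subset.antisymm (fun z hz => ?_) h3
        rcases hXeq z (h4 hz) with h7 | h7
        · left; rw [← h6]; exact ⟨hz, h7⟩
        · right; exact h7
      · right
        refine Set.Subset.antisymm h4 (fun z hz => ?_)
        rcases hXeq z hz with h7 | h7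
        · rw [← h6] at h7; exact h7.1
        · exact h3 (Or.inr h7)
  have h3 := h.2 _ hmax
  have h4 : p ∈ Y := by rw [← h3]; exact Or.inr hpo
  exact hpY h4

omit [TopologicalSpace A] [DiscreteTopology A] in
/-- Gluing. -/
theorem glue {X : Set (ℤ → A)} {M : ℕ} (hW : Win X M) (hinv : ∀ v : ℤ, ∀ x ∈ X, sh v x ∈ X)
    {x x' : ℤ → A} (hx : x ∈ X) (hx' : x' ∈ X) (p : ℤ) (h : ag (sh p x) (sh p x') M) :
    (fun u => if u < p then x u else x' u) ∈ X := by
  refine hW _ fun v => ?_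
  rcases lt_or_ge v p with hv | hv
  · refine ⟨sh v x, hinv v x hx, fun u hu => ?_⟩
    show (if u + v < p then x (u + v) else x' (u + v)) = x (u + v)
    split_ifs with h1
    · rfl
    · rw [abs_le] at hu
      have h2 := h (u + v - p) (by rw [abs_le]; constructor <;> omega)
      simp only [sh, sub_add_cancel] at h2
      exact h2.symm
  · refine ⟨sh v x', hinv v x' hx', fun u hu => ?_⟩
    show (if u + v < p then x (u + v) else x' (u + v)) = x' (u + v)
    split_ifs with h1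
    · rw [abs_le] at hu
      have h2 := h (u + v - p) (by rw [abs_le]; constructor <;> omega)
      simp only [sh, sub_add_cancel] at h2
      exact h2
    · rfl

end

end Pool.Agent.X194.UM
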